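import Pool.Agent.Helper2.NNP.Stm

/-!
# Parts FAM, TRA, MEA (helper89)
-/

set_option autoImplicit false

open MeasureTheory Filter Topology Finset
open scoped Real

namespace Pool.Agent.H89B.NNP

open Pool.Agent.Helper2.NNP

/-! ### FAM -/

theorem not_summable_aux : ¬ Summable (fun n : ℕ => 1 / ((n : ℝ) * Real.log n)) := by
  have h1 : (0 : ℕ → ℝ) ≤ᶠ[atTop] (fun n : ℕ => 1 / ((n : ℝ) * Real.log n)) := by
    filter_upwards [eventually_ge_atTop 1] with n hn
    have : 0 ≤ Real.log n := Real.log_natCast_nonneg n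
    show (0 : ℝ) ≤ 1 / ((n : ℝ) * Real.log n)
    positivity
  have h2 : ∀ᶠ k : ℕ in atTop, 1 / (((k + 1 : ℕ) : ℝ) * Real.log ((k + 1 : ℕ) : ℝ)) ≤
      1 / ((k : ℝ) * Real.log k) := by
    filter_upwards [eventually_ge_atTop 2] with n hn
    have h3 : (2 : ℝ) ≤ n := by exact_mod_cast hn
    have h4 : 0 < Real.log n := Real.log_pos (by linarith)
    push_cast
    gcongr <;> linarith
  rw [← summable_condensed_iff_of_eventually_nonneg h1 h2]
  intro h
  have h3 : Summable (fun k : ℕ => 1 / (k : ℝ)) := by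
    have h4 := h.mul_left (Real.log 2)
    refine (summable_congr fun k => ?_).1 h4
    have hl : Real.log 2 ≠ 0 := (Real.log_pos (by norm_num)).ne'
    push_cast
    rw [Real.log_pow]
    rcases Nat.eq_zero_or_pos k with rfl | hk
    · simp
    · have : (k : ℝ) ≠ 0 := by positivity
      field_simp
  exact Real.not_summable_one_div_natCast h3

theorem step {n : ℕ} (hn : 3 ≤ n) : (n : ℝ) * Real.log n + 1 ≤ ((n + 1 : ℕ) : ℝ) * Real.log ((n + 1 : ℕ) : ℝ) := by
  have h3 : (3 : ℝ) ≤ n := by exact_mod_cast hn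
  have h4 : 1 ≤ Real.log ((n + 1 : ℕ) : ℝ) := by
    rw [Real.le_log_iff_exp_le (by positivity)]
    have := Real.exp_one_lt_d9
    push_cast
    linarith
  have h5 : Real.log n ≤ Real.log ((n + 1 : ℕ) : ℝ) := Real.log_le_log (by linarith) (by push_cast; linarith)
  push_cast at h4 h5 ⊢
  nlinarith

theorem t_FAM : S_FAM := by
  have tlog : Tendsto (fun n : ℕ => Real.log n) atTop atTop :=
    Real.tendsto_log_atTop.comp tendsto_natCast_atTop_atTop
  refine ⟨fun u => ⟨1, one_pos, fun r hr hr1 => ⟨⟨by linarith, ?_, ?_⟩, ?_⟩⟩,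
    fun u hu => ⟨u / 3, by linarith, fun r hr hr1 => ⟨⟨by linarith, ?_, ?_⟩, ?_⟩⟩⟩
  · obtain ⟨n₀, hn₀⟩ := eventually_atTop.1 (tlog.eventually_ge_atTop (|u - r| + 2 * r))
    refine ⟨max n₀ 3, fun n hn => ?_⟩
    have h1 := hn₀ n (le_trans (le_max_left _ _) hn)
    have hn3 : 3 ≤ n := le_trans (le_max_right _ _) hn
    have h3 : (3 : ℝ) ≤ n := by exact_mod_cast hn3
    have h4 := neg_abs_le (u - r)
    have h5 := step hn3
    have h6 : Real.log n ≤ Real.log ((n + 1 : ℕ) : ℝ) :=
      Real.log_le_log (by linarith) (by push_cast; linarith)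
    unfold Lg
    push_cast at h5 h6 ⊢
    refine ⟨by linarith, le_rfl, ?_, ?_⟩
    · have h7 : (n : ℝ) * Real.log n ≤ n * Real.log (n + 1) := by gcongr
      nlinarith
    · nlinarith
  · unfold Lg
    have t1 : Tendsto (fun n : ℕ => (u - r) + Real.log n) atTop atTop := tendsto_atTop_add_const_left _ _ tlog
    have t2 := (tendsto_natCast_atTop_atTop (R := ℝ)).atTop_mul_atTop₀ t1
    refine t2.congr fun n => ?_
    ring
  · intro h
    apply not_summable_aux
    refine summable_of_isBigO_nat h ?_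
    refine Asymptotics.IsBigO.of_bound 2 ?_
    filter_upwards [tlog.eventually_ge_atTop (2 * |u - r| + 1), eventually_ge_atTop 1] with n h1 hn
    have h2 : (1 : ℝ) ≤ n := by exact_mod_cast hn
    have h3 := neg_abs_le (u - r)
    have h4 := le_abs_self (u - r)
    have h0 := abs_nonneg (u - r)
    have h5 : 0 < Real.log n := by linarith
    have h6 : 0 < (n : ℝ) * (u - r) + n * Real.log n := by nlinarith
    unfold Lg
    rw [Real.norm_of_nonneg (by positivity), Real.norm_of_nonneg (by positivity), mul_one_div,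
      div_le_div_iff₀ (by positivity) h6]
    nlinarith
  · refine ⟨3, fun n hn => ?_⟩
    have h3 : (3 : ℝ) ≤ n := by exact_mod_cast hn
    have h5 := step hn
    have h4 : 1 ≤ Real.log n := by
      rw [Real.le_log_iff_exp_le (by positivity)]
      have := Real.exp_one_lt_d9
      linarith
    unfold Lg
    have hA : 0 < u - r := by linarith
    refine ⟨by nlinarith, h5, ?_, ?_⟩
    · have h6 : (n : ℝ) * Real.log n ≤ ((n + 1 : ℕ) : ℝ) * Real.log ((n + 1 : ℕ) : ℝ) := by linarith
      have := mul_le_mul_of_nonneg_right h6 hA.le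
      linarith
    · have h6 : 0 ≤ (n : ℝ) * Real.log n := by positivity
      have h7 : u + r - (u - r) ≤ u - r := by linarith
      have := mul_le_mul_of_nonneg_left h7 h6
      linarith
  · unfold Lg
    have hA : 0 < u - r := by linarith
    have t2 := ((tendsto_natCast_atTop_atTop (R := ℝ)).atTop_mul_atTop₀ tlog).atTop_mul_const hA
    refine t2.congr fun n => ?_
    ring
  · intro h
    apply not_summable_aux
    have hA : 0 < u - r := by linarith
    have h2 := h.mul_left (u - r)
    refine (summable_congr fun n => ?_).1 h2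
    unfold Lg
    rw [add_zero, mul_one_div, mul_comm ((n : ℝ) * Real.log n) (u - r), ← div_div, div_self hA.ne']

/-! ### MEA -/

theorem t_MEA : S_MEA := by
  intro s c k n
  have h1 : Measurable (fun x : ℝ => ⌊fn s c n x⌋) := by
    apply Int.measurable_floor.comp
    unfold fn Lg
    fun_prop
  exact h1 (MeasurableSet.of_discrete (s := {z : ℤ | (z + k).toNat.Prime}))

/-! ### TRA -/

theorem t_TRA : S_TRA := by
  intro h1 h2
  constructor
  · have h3 : ∀ᵐ x : ℝ, ∀ k : ℤ, ∃ᶠ n in atTop, x ∈ EE (fun n => n) (fun n => n * Real.log n) k n :=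
      ae_all_iff.2 h1
    set N : Set ℝ := {x : ℝ | ¬ ∀ k : ℤ, ∃ᶠ n in atTop, x ∈ EE (fun n => n) (fun n => n * Real.log n) k n} with hN
    have hN0 : volume N = 0 := ae_iff.1 h3
    have h4 : volume (Real.exp '' N) = 0 :=
      addHaar_image_eq_zero_of_differentiableOn_of_addHaar_eq_zero volume
        Real.differentiable_exp.differentiableOn hN0
    rw [ae_iff]
    refine measure_mono_null ?_ h4
    intro α hα
    simp only [Set.mem_ofPred_eq, Classical.not_imp] at hα
    obtain ⟨hα0, hα1⟩ := hα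
    refine ⟨Real.log α, ?_, Real.exp_log hα0⟩
    intro hcon
    apply hα1
    intro k
    rw [← Nat.frequently_atTop_iff_infinite]
    refine ((hcon k).and_eventually (eventually_ge_atTop 1)).mono ?_
    rintro n ⟨h5, hn⟩
    have hn0 : (0 : ℝ) < n := by exact_mod_cast hn
    have e : fn (fun n => (n : ℝ)) (fun n => (n : ℝ) * Real.log n) n (Real.log α) = (α * n) ^ n := by
      unfold fn Lg
      have : (n : ℝ) * Real.log α + n * Real.log n = n * Real.log (α * n) := by
        rw [Real.log_mul hα0.ne' hn0.ne']; ring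
      rw [this, Real.exp_nat_mul, Real.exp_log (by positivity)]
    have h6 : (⌊fn (fun n => (n : ℝ)) (fun n => (n : ℝ) * Real.log n) n (Real.log α)⌋ + k).toNat.Prime := h5
    rwa [e] at h6
  · have h3 : ∀ᵐ x : ℝ, ∀ k : ℤ, 0 < x → ∃ᶠ n in atTop,
        x ∈ EE (fun n => n * Real.log n) (fun _ => 0) k n := ae_all_iff.2 h2
    filter_upwards [h3] with α hα hα0 k
    rw [← Nat.frequently_atTop_iff_infinite]
    refine ((hα k hα0).and_eventually (eventually_ge_atTop 1)).mono ?_
    rintro n ⟨h5, hn⟩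
    have hn0 : (0 : ℝ) < n := by exact_mod_cast hn
    have e : fn (fun n => (n : ℝ) * Real.log n) (fun _ => 0) n α = (n : ℝ) ^ (α * n) := by
      unfold fn Lg
      rw [Real.rpow_def_of_pos hn0]
      congr 1
      ring
    have h6 : (⌊fn (fun n => (n : ℝ) * Real.log n) (fun _ => 0) n α⌋ + k).toNat.Prime := h5
    rwa [e] at h6

end Pool.Agent.H89B.NNP
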